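import Pool.Agent.Lib.ALLO.Defs
import Pool.Agent.Lib.LU1_h15.GalSep

/-!
# PROJECT ALL, row R12 (block X for `D = 0`): valuation rings

`mem_ICl_of_nonneg`: over a valuation ring `R` of `K`, every element of `E ⊇ K` of value `≥ 0` is
in the localisation at the centre of the integral closure of `R` in `E`.
-/

set_option autoImplicit false

open Polynomial

namespace Pool.Agent.ALLO54

open Pool.Agent.TAO
open Pool.Agent.ALLO
open Pool.Agent.LU1 (FracIs fixO)

universe u w

variable {k Ω : Type u} [Field k] [Field Ω] [Algebra k Ω] {𝕂 : Type w} [Field 𝕂] [LinearOrder 𝕂]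
  [IsStrictOrderedRing 𝕂] {v : OVal 𝕂 Ω}

theorem mem_locv {S : Subalgebra k Ω} {f : Ω} :
    f ∈ locv v S ↔ ∃ a ∈ S, ∃ b ∈ S, b ≠ 0 ∧ v b = 0 ∧ f = a / b := Iff.rfl

theorem le_locv (S : Subalgebra k Ω) : S ≤ locv v S := fun f hf =>
  ⟨f, hf, 1, S.one_mem, one_ne_zero, v.map_one, by rw [div_one]⟩

theorem locv_inv {S : Subalgebra k Ω} {f : Ω} (hf : f ∈ locv v S) (h0 : f ≠ 0) (h1 : v f = 0) :
    f⁻¹ ∈ locv v S := by
  obtain ⟨a, ha, b, hb, hb0, hvb, hfab⟩ := hf
  have ha0 : a ≠ 0 := by
    rintro rfl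
    exact h0 (by rw [hfab, zero_div])
  refine ⟨b, hb, a, ha, ha0, ?_, by rw [hfab, inv_div]⟩
  rw [hfab, v.map_div ha0 hb0, hvb, sub_zero] at h1
  exact h1

theorem locv_nonneg {S : Subalgebra k Ω} (hS : ∀ f ∈ S, v.Ge 0 f) :
    ∀ f ∈ locv v S, v.Ge 0 f := by
  rintro f ⟨a, ha, b, hb, hb0, hvb, rfl⟩ hf0
  have ha0 : a ≠ 0 := by
    rintro rfl
    exact hf0 (zero_div _)
  rw [v.map_div ha0 hb0, hvb, sub_zero]
  exact hS a ha ha0

/-- If `∑_{i ≤ n} c_i a^i = 0`, `c_i ∈ R`, then `s_m = ∑_{i ≥ m} c_i a^(i-m)` and, for `m ≥ 1`,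
`a s_m` are integral over `R`. -/
theorem integral_tail (R : Subalgebra k Ω) (c : ℕ → Ω) (hc : ∀ i, c i ∈ R) (a : Ω) (n : ℕ)
    (s : ℕ → Ω) (hs0 : s (n + 1) = 0) (hs : ∀ m, m ≤ n → s m = c m + a * s (m + 1))
    (hsum : ∑ i ∈ Finset.range (n + 1), c i * a ^ i = 0) :
    ∀ m, m ≤ n + 1 → IsIntegral R (s m) ∧ (1 ≤ m → IsIntegral R (a * s m)) := by
  classical
  -- `∑_{i < m} c_i a^i + s_m a^m = 0`
  have hrel : ∀ m, m ≤ n + 1 → ∑ i ∈ Finset.range m, c i * a ^ i + s m * a ^ m = 0 := by
    intro m hm
    induction hm using Nat.decreasingInduction with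
    | self => rw [hs0, zero_mul, add_zero]; exact hsum
    | of_succ m hm ih =>
      rw [Finset.sum_range_succ] at ih
      rw [hs m (by omega), ← ih]
      ring
  intro m hm
  induction hm using Nat.decreasingInduction with
  | self =>
    rw [hs0, mul_zero]
    exact ⟨isIntegral_zero, fun _ => isIntegral_zero⟩
  | of_succ m hm ih =>
    have hcm : IsIntegral R (c m) := by
      have : c m = algebraMap R Ω ⟨c m, hc m⟩ := rfl
      rw [this]
      exact isIntegral_algebraMap
    have h1 : IsIntegral R (s m) := by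
      rw [hs m (by omega)]
      exact hcm.add (ih.2 (by omega))
    refine ⟨h1, fun hm1 => ?_⟩
    by_cases hsm : s m = 0
    · rw [hsm, mul_zero]; exact isIntegral_zero
    -- the polynomial over the integral closure
    let A := integralClosure R Ω
    let c' : ℕ → A := fun i => ⟨c i, by
      have : c i = algebraMap R Ω ⟨c i, hc i⟩ := rfl
      rw [this]
      exact isIntegral_algebraMap⟩
    let s' : A := ⟨s m, h1⟩
    have hs' : s' ≠ 0 := fun h => hsm (congrArg Subtype.val h)
    let P : A[X] := ∑ i ∈ Finset.range m, C (c' i) * X ^ i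
    have hPdeg : P.degree < (m : ℕ) := by
      refine lt_of_le_of_lt (degree_sum_le _ _) ?_
      refine (Finset.sup_lt_iff (WithBot.bot_lt_coe m)).2 ?_
      intro i hi
      refine lt_of_le_of_lt (degree_C_mul_X_pow_le _ _) ?_
      exact WithBot.coe_lt_coe.2 (Finset.mem_range.1 hi)
    have hlead : (C s' * X ^ m + P).leadingCoeff = s' := by
      have hdeg : P.degree < (C s' * X ^ m).degree := by
        rw [degree_C_mul_X_pow _ hs']
        exact hPdeg
      rw [leadingCoeff_add_of_degree_lt' hdeg, leadingCoeff_C_mul_X_pow]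
    have haev : aeval a (C s' * X ^ m + P) = 0 := by
      have h2 := hrel m (by omega)
      simp only [P, map_add, map_mul, map_pow, aeval_C, aeval_X, map_sum]
      rw [add_comm]
      exact h2
    have h3 : IsIntegral A (s' • a) := by
      have := isIntegral_leadingCoeff_smul (C s' * X ^ m + P) a haev
      rwa [hlead] at this
    have h4 : IsIntegral A (a * s m) := by
      have : s' • a = a * s m := by
        rw [Algebra.smul_def, mul_comm]; rfl
      rwa [this] at h3
    exact isIntegral_trans _ h4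

/-- Over a valuation ring `R` of `K`. -/
theorem mem_ICl_of_nonneg {R : Subalgebra k Ω} {K E : IntermediateField k Ω}
    (hval : ∀ f ∈ K, v.Ge 0 f → f ∈ R) (hKE : K ≤ E) {a : Ω} (ha : a ∈ E)
    (halg : IsAlgebraic K a) (h0 : v.Ge 0 a) : a ∈ ICl v R E := by
  classical
  obtain ⟨P, hP0, hPa⟩ := halg
  obtain ⟨i0, hi0, hmin⟩ := Finset.exists_min_image P.support
    (fun i => v ((P.coeff i : K) : Ω)) (support_nonempty.2 hP0)
  have hne : ∀ i ∈ P.support, ((P.coeff i : K) : Ω) ≠ 0 := fun i hi => by
    have := mem_support_iff.1 hi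
    exact fun h => this (Subtype.ext h)
  have hc0 := hne i0 hi0
  set c0 : Ω := ((P.coeff i0 : K) : Ω) with hc0def
  let c : ℕ → Ω := fun i => ((P.coeff i : K) : Ω) / c0
  have hcK : ∀ i, c i ∈ K := fun i => div_mem (P.coeff i).2 (P.coeff i0).2
  have hcge : ∀ i, v.Ge 0 (c i) := by
    intro i hi
    have h1 : ((P.coeff i : K) : Ω) ≠ 0 := by
      intro h2
      exact hi (by simp only [c, h2, zero_div])
    have h2 : i ∈ P.support := mem_support_iff.2 fun h3 => h1 (by rw [h3]; rfl)
    have h3 := hmin i h2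
    simp only [c]
    rw [v.map_div h1 hc0]
    linarith
  have hcR : ∀ i, c i ∈ R := fun i => hval _ (hcK i) (hcge i)
  set n := P.natDegree with hn
  have hsum : ∑ i ∈ Finset.range (n + 1), c i * a ^ i = 0 := by
    rw [aeval_eq_sum_range] at hPa
    have h1 : ∑ i ∈ Finset.range (n + 1), c i * a ^ i =
        (∑ i ∈ Finset.range (P.natDegree + 1), P.coeff i • a ^ i) / c0 := by
      rw [Finset.sum_div]
      refine Finset.sum_congr rfl fun i _ => ?_
      rw [Algebra.smul_def]
      simp only [c]
      rw [div_mul_eq_mul_div]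
      rfl
    rw [h1, hPa, zero_div]
  let s : ℕ → Ω := fun m => ∑ i ∈ Finset.range (n + 1 - m), c (m + i) * a ^ i
  have hs0 : s (n + 1) = 0 := by simp [s]
  have hs : ∀ m, m ≤ n → s m = c m + a * s (m + 1) := by
    intro m hm
    simp only [s]
    obtain ⟨l, hl⟩ : ∃ l, n + 1 - m = l + 1 := ⟨n - m, by omega⟩
    rw [hl, Finset.sum_range_succ', show n + 1 - (m + 1) = l by omega, Finset.mul_sum]
    rw [add_zero, pow_zero, mul_one, add_comm]
    congr 1
    refine Finset.sum_congr rfl fun i _ => ?_
    rw [show m + (i + 1) = m + 1 + i by omega, pow_succ]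
    ring
  have hint := integral_tail R c hcR a n s hs0 hs hsum
  -- the largest index with coefficient of value `0`
  have hin : i0 ∈ Finset.range (n + 1) := by
    rw [Finset.mem_range]
    have := le_natDegree_of_mem_supp i0 hi0
    omega
  let T := (Finset.range (n + 1)).filter fun i => c i ≠ 0 ∧ v (c i) = 0
  have hT : T.Nonempty := ⟨i0, by
    rw [Finset.mem_filter]
    have h1 : c i0 = 1 := div_self hc0
    exact ⟨hin, by rw [h1]; exact one_ne_zero, by rw [h1]; exact v.map_one⟩⟩
  obtain ⟨j, hj, hjmax⟩ := Finset.exists_max_image T id hT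
  rw [Finset.mem_filter, Finset.mem_range] at hj
  obtain ⟨hjn, hcj0, hcjv⟩ := hj
  have hbig : ∀ i, j < i → VPos v (c i) := by
    intro i hi h1
    by_cases h2 : i < n + 1
    · by_contra h3
      have h4 := hcge i h1
      have h5 : v (c i) = 0 := le_antisymm (not_lt.1 h3) h4
      have h6 := hjmax i (Finset.mem_filter.2 ⟨Finset.mem_range.2 h2, h1, h5⟩)
      simp only [id] at h6
      omega
    · exfalso
      apply h1
      have h3 : P.coeff i = 0 := coeff_eq_zero_of_natDegree_lt (by omega)
      simp only [c, h3]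
      simp
  have htail : VPos v (a * s (j + 1)) := by
    have h1 : VPos v (s (j + 1)) := by
      simp only [s]
      have : ∀ t : Finset ℕ, VPos v (∑ i ∈ t, c (j + 1 + i) * a ^ i) := by
        intro t
        induction t using Finset.induction_on with
        | empty => exact VPos.zero
        | insert i t hi ih =>
          rw [Finset.sum_insert hi]
          refine VPos.add (VPos.mul (hbig _ (by omega)) ?_) ih
          intro hne
          have ha0 : a ≠ 0 ∨ i = 0 := by
            by_cases h : i = 0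
            · exact Or.inr h
            · left
              rintro rfl
              exact hne (zero_pow h)
          rcases ha0 with ha0 | rfl
          · rw [v.map_pow ha0]
            exact mul_nonneg (Nat.cast_nonneg _) (h0 ha0)
          · rw [pow_zero, v.map_one]
      exact this _
    exact VPos.mul' h0 h1
  have hsj := hs j (by omega)
  have hval2 := val_add_vpos (v := v) hcj0 hcjv htail
  rw [← hsj] at hval2
  have hj1 : 1 ≤ j := by
    by_contra hj0
    have hj0' : j = 0 := by omega
    have h1 : s 0 = 0 := by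
      simp only [s]
      rw [Nat.sub_zero, ← hsum]
      exact Finset.sum_congr rfl fun i _ => by rw [Nat.zero_add]
    rw [hj0'] at hval2
    exact hval2.1 h1
  have hsE : ∀ m, s m ∈ E := by
    intro m
    exact sum_mem fun i _ => mul_mem (hKE (hcK _)) (pow_mem ha _)
  obtain ⟨h5, h6⟩ := hint j (by omega)
  exact mem_locv.2 ⟨a * s j, ⟨mul_mem ha (hsE j), h6 hj1⟩, s j, ⟨hsE j, h5⟩, hval2.1,
    hval2.2, by rw [mul_div_cancel_right₀ _ hval2.1]⟩

end Pool.Agent.ALLO54
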